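import Pool.Agent.H22.BsStab

namespace Pool.Agent.Results.MP_5939ed_al.AllN

/-- Normalised Hamming distance on `Sym(N)`. -/
noncomputable def d {N : ℕ} (σ τ : Equiv.Perm (Fin N)) : ℝ :=
  ((Finset.univ.filter (fun i => σ i ≠ τ i)).card : ℝ) / N

/-- `H_n = ⟨s, u, b | s⁻¹ u s = uⁿ, u⁻¹ b u = bⁿ⟩` is stable in permutations. -/
def Stable (n : ℕ) : Prop :=
  ∀ ε : ℝ, 0 < ε → ∃ δ : ℝ, 0 < δ ∧ ∀ (N : ℕ) (s u b : Equiv.Perm (Fin N)),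
    d (s⁻¹ * u * s) (u ^ n) < δ → d (u⁻¹ * b * u) (b ^ n) < δ →
    ∃ s' u' b' : Equiv.Perm (Fin N), s'⁻¹ * u' * s' = u' ^ n ∧ u'⁻¹ * b' * u' = b' ^ n ∧
      d s s' < ε ∧ d u u' < ε ∧ d b b' < ε

theorem result (n : ℕ) (hn : 2 ≤ n) : ¬ Stable n := by
  intro h
  obtain ⟨δ, hδ, H⟩ := h (1 / 32) (by norm_num)
  obtain ⟨N, a, b, c, h1, h2, h3⟩ := Pool.Agent.H22.BsStab.main n hn δ hδ
  obtain ⟨b', a', c', r1, r2, d1, d2, d3⟩ := H N b a c h1 h2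
  exact h3 a' b' c' r1 r2 d2 d1 d3

end Pool.Agent.Results.MP_5939ed_al.AllN
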